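import Pool.Agent.Run7.h812.Torus.Global

open MeasureTheory Set Filter
open scoped ContDiff RealInnerProductSpace Topology

namespace Run7.h812.Torus
namespace Surf
variable (S : Surf)

noncomputable def c (t : ℝ) : ℝ := max (-deriv (deriv S.B) t) 0

lemma B''_cont : Continuous (deriv (deriv S.B)) := by
  have h : ContDiff ℝ 1 (deriv (deriv S.B)) :=
    ContDiff.iterate_deriv' 1 1 (by exact_mod_cast S.B'_contDiff)
  exact h.continuous

lemma c_cont : Continuous S.c := (S.B''_cont.neg).max continuous_const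

noncomputable def g : Fin 3 → ℝ → ℝ :=
  ![indicator (Icc 0 1) (fun t => S.c t / S.a), indicator (Icc 0 1) (fun _ => 1),
    indicator (Ioo 0 1) (fun t => t ^ 2)]

lemma g_nonneg (i : Fin 3) (t : ℝ) : 0 ≤ S.g i t := by
  fin_cases i
  · exact indicator_nonneg (fun _ _ => div_nonneg (le_max_right _ _) S.ha.le) _
  · exact indicator_nonneg (fun _ _ => zero_le_one) _
  · exact indicator_nonneg (fun _ _ => sq_nonneg _) _

lemma g_int (i : Fin 3) : Integrable (S.g i) := by
  fin_cases i
  · refine (integrable_indicator_iff measurableSet_Icc).mpr ?_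
    exact (S.c_cont.div_const _).continuousOn.integrableOn_Icc
  · refine (integrable_indicator_iff measurableSet_Icc).mpr ?_
    exact (continuous_const (y := (1:ℝ))).continuousOn.integrableOn_Icc
  · refine (integrable_indicator_iff measurableSet_Ioo).mpr ?_
    exact ((continuous_id.pow 2).continuousOn.integrableOn_Icc (a := (0:ℝ)) (b := 1)).mono_set Ioo_subset_Icc_self

lemma g0 : ∫ t, S.g 0 t = (∫ t in (0:ℝ)..1, S.c t) / S.a := by
  have : S.g 0 = indicator (Icc 0 1) (fun t => S.c t / S.a) := rfl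
  rw [this, integral_indicator measurableSet_Icc, integral_Icc_eq_integral_Ioc,
    ← intervalIntegral.integral_of_le zero_le_one, intervalIntegral.integral_div]

lemma g1 : ∫ t, S.g 1 t = 1 := by
  have : S.g 1 = indicator (Icc 0 1) (fun t => 1) := rfl
  rw [this, integral_indicator measurableSet_Icc, integral_Icc_eq_integral_Ioc,
    ← intervalIntegral.integral_of_le zero_le_one]
  simp

lemma g2 : ∫ t, S.g 2 t = 1 / 3 := by
  have : S.g 2 = indicator (Ioo 0 1) (fun t => t ^ 2) := rfl
  rw [this, integral_indicator measurableSet_Ioo, ← integral_Ioc_eq_integral_Ioo,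
    ← intervalIntegral.integral_of_le zero_le_one]
  simp
  norm_num

lemma ind_eq (y : E3) : Q.indicator S.dens y
    = ENNReal.ofReal (∏ i, S.g i ((WithLp.ofLp y) i)) := by
  rw [Fin.prod_univ_three]
  by_cases hy : y ∈ Q
  · rw [indicator_of_mem hy]
    obtain ⟨⟨h0, h1⟩, h2⟩ := hy
    have a0 : y 0 ∈ Icc (0:ℝ) 1 := ⟨h0 0, h1 0⟩
    have a1 : y 1 ∈ Icc (0:ℝ) 1 := ⟨h0 1, h1 1⟩
    have e0 : S.g 0 (y 0) = S.c (y 0) / S.a := by
      change indicator (Icc 0 1) (fun t => S.c t / S.a) (y 0) = _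
      exact indicator_of_mem a0 _
    have e1 : S.g 1 (y 1) = 1 := by
      change indicator (Icc 0 1) (fun _ => (1:ℝ)) (y 1) = _
      exact indicator_of_mem a1 _
    have e2 : S.g 2 (y 2) = (y 2) ^ 2 := by
      change indicator (Ioo 0 1) (fun t => t ^ 2) (y 2) = _
      exact indicator_of_mem h2 _
    rw [e0, e1, e2, dens]
    congr 1
    unfold c; ring
  · rw [indicator_of_notMem hy]
    symm
    rw [ENNReal.ofReal_eq_zero]
    apply le_of_eq
    by_contra hne
    apply hy
    have n0 : S.g 0 (y 0) ≠ 0 := fun h => hne (by simp [h])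
    have n1 : S.g 1 (y 1) ≠ 0 := fun h => hne (by simp [h])
    have n2 : S.g 2 (y 2) ≠ 0 := fun h => hne (by simp [h])
    have a0 : y 0 ∈ Icc (0:ℝ) 1 := mem_of_indicator_ne_zero (f := fun t => S.c t / S.a) n0
    have a1 : y 1 ∈ Icc (0:ℝ) 1 := mem_of_indicator_ne_zero (f := fun _ => (1:ℝ)) n1
    have a2 : y 2 ∈ Ioo (0:ℝ) 1 := mem_of_indicator_ne_zero (f := fun t => t ^ 2) n2
    refine ⟨⟨?_, ?_⟩, a2⟩
    · intro i; fin_cases i
      · exact a0.1
      · exact a1.1
    · intro i; fin_cases i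
      · exact a0.2
      · exact a1.2

lemma dens_int : ∫⁻ y in Q, S.dens y
    = ENNReal.ofReal ((∫ t in (0:ℝ)..1, S.c t) / S.a * (1 / 3)) := by
  have hint : Integrable (fun z : Fin 3 → ℝ => ∏ i, S.g i (z i)) :=
    Integrable.fintype_prod S.g_int
  rw [← lintegral_indicator Q_meas]
  simp_rw [S.ind_eq]
  have hmp := PiLp.volume_preserving_ofLp (Fin 3)
  have h1 : ∫⁻ y : E3, ENNReal.ofReal (∏ i, S.g i ((WithLp.ofLp y) i))
      = ∫⁻ z : Fin 3 → ℝ, ENNReal.ofReal (∏ i, S.g i (z i)) := by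
    exact hmp.lintegral_comp_emb (MeasurableEquiv.toLp 2 (Fin 3 → ℝ)).symm.measurableEmbedding
      (fun z => ENNReal.ofReal (∏ i, S.g i (z i)))
  rw [h1, ← ofReal_integral_eq_lintegral_ofReal hint
    (Filter.Eventually.of_forall fun z => Finset.prod_nonneg fun i _ => S.g_nonneg i _)]
  congr 1
  have := integral_fintype_prod_volume_eq_prod (𝕜 := ℝ) (ι := Fin 3) (E := fun _ => ℝ) S.g
  rw [this, Fin.prod_univ_three, S.g0, S.g1, S.g2]
  ring

/-- total positive curvature of a closed surface is at least `4π` -/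
theorem total (hper : S.Per) (hB : ∃ t, deriv (deriv S.B) t ≠ 0) :
    4 * Real.pi * S.a ≤ ∫ t in (0:ℝ)..1, S.c t := by
  have h := S.ball_le hper hB
  rw [S.dens_int, EuclideanSpace.volume_ball_fin_three] at h
  have hnn : 0 ≤ (∫ t in (0:ℝ)..1, S.c t) / S.a * (1 / 3) := by
    have : 0 ≤ ∫ t in (0:ℝ)..1, S.c t :=
      intervalIntegral.integral_nonneg zero_le_one fun t _ => le_max_right _ _
    have := div_nonneg this S.ha.le
    positivity
  simp only [ENNReal.ofReal_one, one_pow, one_mul] at h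
  rw [ENNReal.ofReal_le_ofReal_iff hnn] at h
  have ha := S.ha
  rw [div_mul_eq_mul_div, le_div_iff₀ ha] at h
  linarith

end Surf
end Run7.h812.Torus
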