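import Mathlib

/-! Local differential geometry of a surface in space with first fundamental form
`a² dx₀² + B(x₀)² dx₁²`. -/

open MeasureTheory Set
open scoped ContDiff RealInnerProductSpace

namespace Run7.h812.Torus

abbrev V2 := Fin 2 → ℝ
abbrev E3 := EuclideanSpace ℝ (Fin 3)

/-- partial derivative in the `i`-th coordinate direction -/
noncomputable def D {F : Type*} [NormedAddCommGroup F] [NormedSpace ℝ F] (i : Fin 2) (f : V2 → F) :
    V2 → F := fun x => fderiv ℝ f x (Pi.single i 1)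

section calcul
variable {F : Type*} [NormedAddCommGroup F] [NormedSpace ℝ F]

lemma D_contDiff {n : WithTop ℕ∞} {f : V2 → F} (hf : ContDiff ℝ (n + 1) f) (i : Fin 2) :
    ContDiff ℝ n (D i f) :=
  (hf.fderiv_right (m := n) le_rfl).clm_apply contDiff_const

lemma D_comm {f : V2 → F} (hf : ContDiff ℝ 2 f) (i j : Fin 2) (x : V2) :
    D i (D j f) x = D j (D i f) x := by
  have h1 : ContDiff ℝ 1 (fderiv ℝ f) := hf.fderiv_right (m := 1) (by norm_num)
  have h2 : DifferentiableAt ℝ (fderiv ℝ f) x := (h1.differentiable (by norm_num)) x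
  have key : ∀ i j : Fin 2, D i (D j f) x
      = (fderiv ℝ (fderiv ℝ f) x (Pi.single i 1)) (Pi.single j 1) := by
    intro i j
    unfold D
    have := (h2.hasFDerivAt.clm_apply (hasFDerivAt_const (Pi.single j (1:ℝ) : V2) x)).fderiv
    rw [this]
    simp
  rw [key, key]
  have hs : IsSymmSndFDerivAt ℝ f x := hf.contDiffAt.isSymmSndFDerivAt (by simp)
  exact hs _ _

lemma D_add {f g : V2 → F} (hf : Differentiable ℝ f) (hg : Differentiable ℝ g) (i : Fin 2) (x : V2) :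
    D i (fun y => f y + g y) x = D i f x + D i g x := by
  unfold D; rw [fderiv_fun_add (hf x) (hg x)]; rfl

lemma D_const (c : F) (i : Fin 2) (x : V2) : D i (fun _ => c) x = 0 := by
  unfold D; simp

end calcul

section inn
variable {F : Type*} [NormedAddCommGroup F] [InnerProductSpace ℝ F]

lemma D_inner {u v : V2 → F} (hu : Differentiable ℝ u) (hv : Differentiable ℝ v) (i : Fin 2)
    (x : V2) :
    D i (fun y => ⟪u y, v y⟫) x = ⟪u x, D i v x⟫ + ⟪D i u x, v x⟫ := by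
  unfold D
  rw [fderiv_inner_apply ℝ (hu x) (hv x)]

end inn

lemma inner3 (u v : E3) : ⟪u, v⟫ = u 0 * v 0 + u 1 * v 1 + u 2 * v 2 := by
  simp [PiLp.inner_apply, Fin.sum_univ_three]
  ring

/-- cross product on `E3` -/
noncomputable def cross (u v : E3) : E3 :=
  !₂[u 1 * v 2 - u 2 * v 1, u 2 * v 0 - u 0 * v 2, u 0 * v 1 - u 1 * v 0]

lemma cross_contDiff {n : WithTop ℕ∞} {u v : V2 → E3} (hu : ContDiff ℝ n u) (hv : ContDiff ℝ n v) :
    ContDiff ℝ n (fun x => cross (u x) (v x)) := by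
  rw [contDiff_euclidean] at hu hv ⊢
  intro i
  fin_cases i
  · exact ((hu 1).mul (hv 2)).sub ((hu 2).mul (hv 1))
  · exact ((hu 2).mul (hv 0)).sub ((hu 0).mul (hv 2))
  · exact ((hu 0).mul (hv 1)).sub ((hu 1).mul (hv 0))

lemma inner_cross_left (u v : E3) : ⟪cross u v, u⟫ = 0 := by
  rw [inner3]; simp [cross]; ring

lemma inner_cross_right (u v : E3) : ⟪cross u v, v⟫ = 0 := by
  rw [inner3]; simp [cross]; ring

lemma inner_cross_self (u v : E3) :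
    ⟪cross u v, cross u v⟫ = ⟪u, u⟫ * ⟪v, v⟫ - ⟪u, v⟫ ^ 2 := by
  simp only [inner3]; simp [cross]; ring


/-! ### the surface -/

/-- determinant of three vectors -/
noncomputable def det3 (u v w : E3) : ℝ :=
  Matrix.det !![u 0, u 1, u 2; v 0, v 1, v 2; w 0, w 1, w 2]

lemma det3_mul (u v w u' v' w' : E3) :
    det3 u v w * det3 u' v' w' =
      Matrix.det !![⟪u, u'⟫, ⟪u, v'⟫, ⟪u, w'⟫; ⟪v, u'⟫, ⟪v, v'⟫, ⟪v, w'⟫;
        ⟪w, u'⟫, ⟪w, v'⟫, ⟪w, w'⟫] := by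
  simp only [det3, inner3, Matrix.det_fin_three]
  simp
  ring

structure Surf where
  f : V2 → E3
  a : ℝ
  B : ℝ → ℝ
  hf : ContDiff ℝ 3 f
  ha : 0 < a
  hB : ContDiff ℝ 3 B
  hBp : ∀ t, 0 < B t
  h00 : ∀ x, ⟪D 0 f x, D 0 f x⟫ = a ^ 2
  h01 : ∀ x, ⟪D 0 f x, D 1 f x⟫ = 0
  h11 : ∀ x, ⟪D 1 f x, D 1 f x⟫ = (B (x 0)) ^ 2

namespace Surf
variable (S : Surf)

/-- first partials -/
noncomputable def p (i : Fin 2) : V2 → E3 := D i S.f
/-- second partials -/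
noncomputable def q (i j : Fin 2) : V2 → E3 := D i (S.p j)

lemma p_contDiff (i : Fin 2) : ContDiff ℝ 2 (S.p i) := D_contDiff (n := 2) (by exact_mod_cast S.hf) i
lemma q_contDiff (i j : Fin 2) : ContDiff ℝ 1 (S.q i j) :=
  D_contDiff (n := 1) (by exact_mod_cast S.p_contDiff j) i

lemma p_diff (i : Fin 2) : Differentiable ℝ (S.p i) := (S.p_contDiff i).differentiable (by norm_num)
lemma q_diff (i j : Fin 2) : Differentiable ℝ (S.q i j) := (S.q_contDiff i j).differentiable (by norm_num)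

lemma q_symm (i j : Fin 2) (x : V2) : S.q i j x = S.q j i x :=
  D_comm (S.hf.of_le (by norm_num)) i j x

lemma Dq_symm (i j k : Fin 2) (x : V2) : D i (S.q j k) x = D j (S.q i k) x :=
  D_comm (S.p_contDiff k) i j x

/-- derivative of functions of the first coordinate -/
lemma D_comp0 {g : ℝ → ℝ} (hg : Differentiable ℝ g) (x : V2) :
    D 0 (fun y : V2 => g (y 0)) x = deriv g (x 0) := by
  unfold D
  have h1 : HasFDerivAt (fun y : V2 => y 0) (ContinuousLinearMap.proj (R := ℝ) (φ := fun _ : Fin 2 => ℝ) 0) x :=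
    (ContinuousLinearMap.proj (R := ℝ) (φ := fun _ : Fin 2 => ℝ) 0).hasFDerivAt
  have h2 := (hg (x 0)).hasDerivAt.comp_hasFDerivAt x h1
  have h3 : fderiv ℝ (fun y : V2 => g (y 0)) x = _ := h2.fderiv
  rw [h3]; simp

lemma D_comp1 {g : ℝ → ℝ} (hg : Differentiable ℝ g) (x : V2) :
    D 1 (fun y : V2 => g (y 0)) x = 0 := by
  unfold D
  have h1 : HasFDerivAt (fun y : V2 => y 0) (ContinuousLinearMap.proj (R := ℝ) (φ := fun _ : Fin 2 => ℝ) 0) x :=
    (ContinuousLinearMap.proj (R := ℝ) (φ := fun _ : Fin 2 => ℝ) 0).hasFDerivAt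
  have h2 := (hg (x 0)).hasDerivAt.comp_hasFDerivAt x h1
  have h3 : fderiv ℝ (fun y : V2 => g (y 0)) x = _ := h2.fderiv
  rw [h3]; simp

lemma B_diff : Differentiable ℝ S.B := S.hB.differentiable (by norm_num)
lemma B'_contDiff : ContDiff ℝ 2 (deriv S.B) := by
  have := S.hB
  exact ContDiff.iterate_deriv' 2 1 (by exact_mod_cast this)
lemma B'_diff : Differentiable ℝ (deriv S.B) := S.B'_contDiff.differentiable (by norm_num)

/-- inner products of second and first derivatives -/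
lemma q00_p0 (x : V2) : ⟪S.q 0 0 x, S.p 0 x⟫ = 0 := by
  have h := D_inner (S.p_diff 0) (S.p_diff 0) 0 x
  have h' : D 0 (fun y => ⟪S.p 0 y, S.p 0 y⟫) x = 0 := by
    have : (fun y => ⟪S.p 0 y, S.p 0 y⟫) = fun _ => S.a ^ 2 := funext S.h00
    rw [this, D_const]
  rw [h'] at h
  have h2 : ⟪S.p 0 x, D 0 (S.p 0) x⟫ = ⟪D 0 (S.p 0) x, S.p 0 x⟫ := real_inner_comm _ _
  rw [h2] at h
  change ⟪D 0 (S.p 0) x, S.p 0 x⟫ = 0
  linarith

lemma q01_p0 (x : V2) : ⟪S.q 0 1 x, S.p 0 x⟫ = 0 := by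
  have h := D_inner (S.p_diff 0) (S.p_diff 0) 1 x
  have h' : D 1 (fun y => ⟪S.p 0 y, S.p 0 y⟫) x = 0 := by
    have : (fun y => ⟪S.p 0 y, S.p 0 y⟫) = fun _ => S.a ^ 2 := funext S.h00
    rw [this, D_const]
  rw [h'] at h
  have h2 : ⟪S.p 0 x, D 1 (S.p 0) x⟫ = ⟪D 1 (S.p 0) x, S.p 0 x⟫ := real_inner_comm _ _
  rw [h2] at h
  rw [S.q_symm 0 1]
  change ⟪D 1 (S.p 0) x, S.p 0 x⟫ = 0
  linarith

lemma q00_p1 (x : V2) : ⟪S.q 0 0 x, S.p 1 x⟫ = 0 := by
  have h := D_inner (S.p_diff 0) (S.p_diff 1) 0 x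
  have h' : D 0 (fun y => ⟪S.p 0 y, S.p 1 y⟫) x = 0 := by
    have : (fun y => ⟪S.p 0 y, S.p 1 y⟫) = fun _ => 0 := funext S.h01
    rw [this, D_const]
  rw [h'] at h
  have h2 : ⟪S.p 0 x, D 0 (S.p 1) x⟫ = ⟪S.q 0 1 x, S.p 0 x⟫ := real_inner_comm _ _
  rw [h2, S.q01_p0] at h
  change ⟪D 0 (S.p 0) x, S.p 1 x⟫ = 0
  linarith

lemma q01_p1 (x : V2) : ⟪S.q 0 1 x, S.p 1 x⟫ = S.B (x 0) * deriv S.B (x 0) := by
  have h := D_inner (S.p_diff 1) (S.p_diff 1) 0 x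
  have h' : D 0 (fun y => ⟪S.p 1 y, S.p 1 y⟫) x = 2 * S.B (x 0) * deriv S.B (x 0) := by
    have : (fun y => ⟪S.p 1 y, S.p 1 y⟫) = fun y => (fun t => S.B t ^ 2) (y 0) := funext S.h11
    rw [this, D_comp0 (g := fun t => S.B t ^ 2) (S.B_diff.fun_pow 2)]
    rw [((S.B_diff (x 0)).hasDerivAt.fun_pow 2).deriv]
    norm_num
  rw [h'] at h
  have h2 : ⟪S.p 1 x, D 0 (S.p 1) x⟫ = ⟪D 0 (S.p 1) x, S.p 1 x⟫ := real_inner_comm _ _
  rw [h2] at h
  change ⟪D 0 (S.p 1) x, S.p 1 x⟫ = _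
  linarith

/-- the Gauss equation -/
lemma gauss (x : V2) : ⟪S.q 0 0 x, S.q 1 1 x⟫ - ⟪S.q 0 1 x, S.q 0 1 x⟫
    = - (S.B (x 0) * deriv (deriv S.B) (x 0) + deriv S.B (x 0) ^ 2) := by
  -- differentiate `⟪q01, p1⟫ = B B'` in direction 0
  have h := D_inner (S.q_diff 0 1) (S.p_diff 1) 0 x
  have h' : D 0 (fun y => ⟪S.q 0 1 y, S.p 1 y⟫) x
      = deriv S.B (x 0) * deriv S.B (x 0) + S.B (x 0) * deriv (deriv S.B) (x 0) := by
    have : (fun y => ⟪S.q 0 1 y, S.p 1 y⟫) = fun y => (fun t => S.B t * deriv S.B t) (y 0) :=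
      funext S.q01_p1
    rw [this, D_comp0 (g := fun t => S.B t * deriv S.B t) (S.B_diff.fun_mul S.B'_diff)]
    exact ((S.B_diff (x 0)).hasDerivAt.fun_mul (S.B'_diff (x 0)).hasDerivAt).deriv
  have k := D_inner (S.q_diff 0 0) (S.p_diff 1) 1 x
  have k' : D 1 (fun y => ⟪S.q 0 0 y, S.p 1 y⟫) x = 0 := by
    have : (fun y => ⟪S.q 0 0 y, S.p 1 y⟫) = fun _ => 0 := funext S.q00_p1
    rw [this, D_const]
  have e1 : D 1 (S.q 0 0) x = D 0 (S.q 0 1) x := by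
    rw [S.Dq_symm 1 0 0 x]
    congr 1
    exact funext fun y => S.q_symm 1 0 y
  rw [k', e1] at k
  rw [h'] at h
  have a1 : D 1 (S.p 1) x = S.q 1 1 x := rfl
  have a2 : D 0 (S.p 1) x = S.q 0 1 x := rfl
  rw [a1] at k
  rw [a2] at h
  linarith

/-- unit normal -/
noncomputable def n (x : V2) : E3 := (S.a * S.B (x 0))⁻¹ • cross (S.p 0 x) (S.p 1 x)

lemma aB_pos (x : V2) : 0 < S.a * S.B (x 0) := mul_pos S.ha (S.hBp _)

lemma n_contDiff : ContDiff ℝ 2 S.n := by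
  have h1 : ContDiff ℝ 2 (fun x : V2 => (S.a * S.B (x 0))⁻¹) := by
    refine ContDiff.inv ?_ (fun x => (S.aB_pos x).ne')
    refine contDiff_const.mul ?_
    exact (S.hB.of_le (by norm_num)).comp (contDiff_apply ℝ ℝ 0)
  exact h1.smul (cross_contDiff (S.p_contDiff 0) (S.p_contDiff 1))

lemma n_diff : Differentiable ℝ S.n := S.n_contDiff.differentiable (by norm_num)

lemma n_n (x : V2) : ⟪S.n x, S.n x⟫ = 1 := by
  unfold n
  rw [real_inner_smul_left, real_inner_smul_right, inner_cross_self]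
  have h0 : ⟪S.p 0 x, S.p 0 x⟫ = _ := S.h00 x
  have h1 : ⟪S.p 0 x, S.p 1 x⟫ = _ := S.h01 x
  have h2 : ⟪S.p 1 x, S.p 1 x⟫ = _ := S.h11 x
  rw [h0, h1, h2]
  have := (S.aB_pos x).ne'
  have ha := S.ha.ne'
  have hb := (S.hBp (x 0)).ne'
  field_simp
  ring

lemma n_p (i : Fin 2) (x : V2) : ⟪S.n x, S.p i x⟫ = 0 := by
  unfold n
  rw [real_inner_smul_left]
  fin_cases i
  · have := inner_cross_left (S.p 0 x) (S.p 1 x)
    simp only [Fin.zero_eta]
    rw [this, mul_zero]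
  · have := inner_cross_right (S.p 0 x) (S.p 1 x)
    simp only [Fin.mk_one]
    rw [this, mul_zero]

/-- second fundamental form -/
noncomputable def h (i j : Fin 2) (x : V2) : ℝ := ⟪S.n x, S.q i j x⟫

lemma Dn_n (i : Fin 2) (x : V2) : ⟪D i S.n x, S.n x⟫ = 0 := by
  have h := D_inner S.n_diff S.n_diff i x
  have h' : D i (fun y => ⟪S.n y, S.n y⟫) x = 0 := by
    have : (fun y => ⟪S.n y, S.n y⟫) = fun _ => 1 := funext S.n_n
    rw [this, D_const]
  rw [h'] at h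
  have h2 : ⟪S.n x, D i S.n x⟫ = ⟪D i S.n x, S.n x⟫ := real_inner_comm _ _
  rw [h2] at h
  linarith

lemma Dn_p (i j : Fin 2) (x : V2) : ⟪D i S.n x, S.p j x⟫ = - S.h i j x := by
  have h := D_inner S.n_diff (S.p_diff j) i x
  have h' : D i (fun y => ⟪S.n y, S.p j y⟫) x = 0 := by
    have : (fun y => ⟪S.n y, S.p j y⟫) = fun _ => 0 := funext (S.n_p j)
    rw [this, D_const]
  rw [h'] at h
  have : ⟪S.n x, D i (S.p j) x⟫ = S.h i j x := rfl
  rw [this] at h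
  linarith

lemma h_symm (i j : Fin 2) (x : V2) : S.h i j x = S.h j i x := by
  unfold h; rw [S.q_symm]

lemma det_f (x : V2) : det3 (S.p 0 x) (S.p 1 x) (S.n x) ^ 2 = (S.a * S.B (x 0)) ^ 2 := by
  rw [pow_two, det3_mul]
  have h0 : ⟪S.p 0 x, S.p 0 x⟫ = _ := S.h00 x
  have h1 : ⟪S.p 0 x, S.p 1 x⟫ = _ := S.h01 x
  have h1' : ⟪S.p 1 x, S.p 0 x⟫ = 0 := by rw [real_inner_comm]; exact S.h01 x
  have h2 : ⟪S.p 1 x, S.p 1 x⟫ = _ := S.h11 x
  have h3 : ⟪S.p 0 x, S.n x⟫ = 0 := by rw [real_inner_comm]; exact S.n_p 0 x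
  have h4 : ⟪S.p 1 x, S.n x⟫ = 0 := by rw [real_inner_comm]; exact S.n_p 1 x
  rw [h0, h1, h1', h2, h3, h4, S.n_n, S.n_p, S.n_p]
  simp [Matrix.det_fin_three]
  ring

/-- any vector orthogonal to both tangents is a multiple of the normal -/
lemma eq_smul_n (x : V2) (v : E3) (h0 : ⟪v, S.p 0 x⟫ = 0) (h1 : ⟪v, S.p 1 x⟫ = 0) :
    v = ⟪v, S.n x⟫ • S.n x := by
  -- the three vectors form a basis
  set w := v - ⟪v, S.n x⟫ • S.n x with hw
  have w0 : ⟪w, S.p 0 x⟫ = 0 := by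
    rw [hw, inner_sub_left, real_inner_smul_left, h0, S.n_p]; ring
  have w1 : ⟪w, S.p 1 x⟫ = 0 := by
    rw [hw, inner_sub_left, real_inner_smul_left, h1, S.n_p]; ring
  have w2 : ⟪w, S.n x⟫ = 0 := by
    rw [hw, inner_sub_left, real_inner_smul_left, S.n_n]; ring
  have hdet : det3 (S.p 0 x) (S.p 1 x) (S.n x) ≠ 0 := by
    intro h
    have := S.det_f x
    rw [h] at this
    have h2 := pow_pos (S.aB_pos x) 2
    rw [← this] at h2
    norm_num at h2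
  have hw0 : w = 0 := by
    set M : Matrix (Fin 3) (Fin 3) ℝ := !![S.p 0 x 0, S.p 0 x 1, S.p 0 x 2; S.p 1 x 0, S.p 1 x 1, S.p 1 x 2;
      S.n x 0, S.n x 1, S.n x 2] with hM
    have hMdet : M.det ≠ 0 := hdet
    have hmul : M.mulVec (fun i => w i) = 0 := by
      funext i
      fin_cases i
      · simp [hM, Matrix.mulVec, dotProduct, Fin.sum_univ_three]
        rw [inner3] at w0; linarith
      · simp [hM, Matrix.mulVec, dotProduct, Fin.sum_univ_three]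
        rw [inner3] at w1; linarith
      · simp [hM, Matrix.mulVec, dotProduct, Fin.sum_univ_three]
        rw [inner3] at w2; linarith
    have := Matrix.eq_zero_of_mulVec_eq_zero hMdet hmul
    ext i
    exact congrFun this i
  rw [hw] at hw0
  exact sub_eq_zero.mp hw0

lemma q00_eq (x : V2) : S.q 0 0 x = S.h 0 0 x • S.n x := by
  have := S.eq_smul_n x (S.q 0 0 x) (S.q00_p0 x) (S.q00_p1 x)
  rw [real_inner_comm] at this
  exact this

lemma q01_sq (x : V2) : ⟪S.q 0 1 x, S.q 0 1 x⟫ = S.h 0 1 x ^ 2 + deriv S.B (x 0) ^ 2 := by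
  have hb := (S.hBp (x 0)).ne'
  set c : ℝ := deriv S.B (x 0) / S.B (x 0) with hc
  have h2 : ⟪S.p 1 x, S.p 1 x⟫ = _ := S.h11 x
  have h1' : ⟪S.p 1 x, S.p 0 x⟫ = 0 := by rw [real_inner_comm]; exact S.h01 x
  have h4 : ⟪S.p 1 x, S.n x⟫ = 0 := by rw [real_inner_comm]; exact S.n_p 1 x
  have e := S.eq_smul_n x (S.q 0 1 x - c • S.p 1 x)
    (by rw [inner_sub_left, real_inner_smul_left, S.q01_p0, h1']; ring)
    (by rw [inner_sub_left, real_inner_smul_left, S.q01_p1, h2, hc]; field_simp; ring)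
  have e2 : ⟪S.q 0 1 x - c • S.p 1 x, S.n x⟫ = S.h 0 1 x := by
    rw [inner_sub_left, real_inner_smul_left, h4, mul_zero, sub_zero, real_inner_comm]; rfl
  rw [e2] at e
  have e3 : S.q 0 1 x = S.h 0 1 x • S.n x + c • S.p 1 x := by
    rw [← e]; abel
  have key : ⟪S.q 0 1 x, S.q 0 1 x⟫ = S.h 0 1 x * ⟪S.n x, S.q 0 1 x⟫ + c * ⟪S.p 1 x, S.q 0 1 x⟫ := by
    conv_lhs => rw [show ⟪S.q 0 1 x, S.q 0 1 x⟫ = ⟪S.h 0 1 x • S.n x + c • S.p 1 x, S.q 0 1 x⟫ from by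
      rw [← e3]]
    rw [inner_add_left, real_inner_smul_left, real_inner_smul_left]
  rw [key, real_inner_comm (S.q 0 1 x) (S.p 1 x), S.q01_p1, hc]
  have : ⟪S.n x, S.q 0 1 x⟫ = S.h 0 1 x := rfl
  rw [this]
  field_simp

/-- Theorema egregium for this surface -/
lemma h_det (x : V2) : S.h 0 0 x * S.h 1 1 x - S.h 0 1 x ^ 2 = - (S.B (x 0) * deriv (deriv S.B) (x 0)) := by
  have g := S.gauss x
  rw [S.q01_sq, S.q00_eq, real_inner_smul_left] at g
  have : ⟪S.n x, S.q 1 1 x⟫ = S.h 1 1 x := rfl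
  rw [this] at g
  linarith

/-- Jacobian of the Gauss map -/
lemma det_n (x : V2) : |det3 (D 0 S.n x) (D 1 S.n x) (S.n x)| = |deriv (deriv S.B) (x 0)| / S.a := by
  have h := det3_mul (D 0 S.n x) (D 1 S.n x) (S.n x) (S.p 0 x) (S.p 1 x) (S.n x)
  rw [S.Dn_p, S.Dn_p, S.Dn_p, S.Dn_p, S.Dn_n, S.Dn_n, S.n_n, S.n_p, S.n_p] at h
  have h' : det3 (D 0 S.n x) (D 1 S.n x) (S.n x) * det3 (S.p 0 x) (S.p 1 x) (S.n x)
      = - (S.B (x 0) * deriv (deriv S.B) (x 0)) := by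
    rw [h, ← S.h_det x, S.h_symm 1 0]
    simp [Matrix.det_fin_three]
    ring
  have hd : |det3 (S.p 0 x) (S.p 1 x) (S.n x)| = S.a * S.B (x 0) := by
    have := S.det_f x
    rw [sq_eq_sq_iff_abs_eq_abs, abs_of_pos (S.aB_pos x)] at this
    exact this
  have h2 := congrArg abs h'
  rw [abs_mul, hd, abs_neg, abs_mul, abs_of_pos (S.hBp (x 0))] at h2
  have hb := (S.hBp (x 0)).ne'
  have ha := S.ha.ne'
  rw [eq_div_iff ha]
  have h3 : (|det3 (D 0 S.n x) (D 1 S.n x) (S.n x)| * S.a) * S.B (x 0)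
      = |deriv (deriv S.B) (x 0)| * S.B (x 0) := by
    rw [← mul_comm (S.B (x 0)) |deriv (deriv S.B) (x 0)|, ← h2]; ring
  exact mul_right_cancel₀ hb h3

end Surf

end Run7.h812.Torus
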