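import Pool.Agent.Run7.h812.Torus.Geom

/-! Total positive curvature of a closed surface. -/

open MeasureTheory Set Filter
open scoped ContDiff RealInnerProductSpace Topology

namespace Run7.h812.Torus

lemma second_deriv_nonpos {φ : ℝ → ℝ} (hφ : Differentiable ℝ φ) (hmax : IsLocalMax φ 0) :
    deriv (deriv φ) 0 ≤ 0 := by
  by_contra hlt
  rw [not_le] at hlt
  have hmin : IsLocalMin φ 0 :=
    isLocalMin_of_deriv_deriv_pos hlt hmax.deriv_eq_zero hφ.continuous.continuousAt
  have hconst : φ =ᶠ[𝓝 0] fun _ => φ 0 := by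
    filter_upwards [hmin, hmax] with t h1 h2
    exact le_antisymm h2 h1
  have h1 : deriv φ =ᶠ[𝓝 0] fun _ => (0:ℝ) := by
    have := hconst.deriv
    refine this.trans ?_
    filter_upwards with t
    simp
  have h2 := h1.deriv_eq
  rw [h2] at hlt
  simp at hlt

lemma hasDerivAt_line {H : V2 → ℝ} (hH : Differentiable ℝ H) (x u : V2) (t : ℝ) :
    HasDerivAt (fun t : ℝ => H (x + t • u))
      (u 0 * D 0 H (x + t • u) + u 1 * D 1 H (x + t • u)) t := by
  have h1 : HasDerivAt (fun t : ℝ => x + t • u) u t := by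
    have := ((hasDerivAt_id t).smul_const u).const_add x
    simpa using this
  have h2 := (hH (x + t • u)).hasFDerivAt.comp_hasDerivAt t h1
  have h3 : (fderiv ℝ H (x + t • u)) u
      = u 0 * D 0 H (x + t • u) + u 1 * D 1 H (x + t • u) := by
    have hu : u = u 0 • (Pi.single 0 1 : V2) + u 1 • (Pi.single 1 1 : V2) := by
      funext i; fin_cases i <;> simp
    have key : ∀ L : V2 →L[ℝ] ℝ, L u = u 0 * L (Pi.single 0 1) + u 1 * L (Pi.single 1 1) := by
      intro L
      conv_lhs => rw [hu]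
      rw [map_add, map_smul, map_smul]
      rfl
    exact key _
  rw [h3] at h2
  exact h2

namespace Surf
variable (S : Surf)

/-- second order condition at a maximum of a height function -/
lemma second_order (v : E3) (x : V2) (hx : ∀ y, ⟪S.f y, v⟫ ≤ ⟪S.f x, v⟫) :
    (∀ i, ⟪v, S.p i x⟫ = 0) ∧
    ∀ u : V2, ⟪S.q 0 0 x, v⟫ * u 0 ^ 2 + 2 * ⟪S.q 0 1 x, v⟫ * (u 0 * u 1) + ⟪S.q 1 1 x, v⟫ * u 1 ^ 2 ≤ 0 := by
  have hfd : Differentiable ℝ S.f := S.hf.differentiable (by norm_num)
  set G : V2 → ℝ := fun y => ⟪S.f y, v⟫ with hG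
  have hGd : Differentiable ℝ G := hfd.inner ℝ (differentiable_const v)
  have DG : ∀ i, D i G = fun y => ⟪S.p i y, v⟫ := by
    intro i
    funext y
    have := D_inner hfd (differentiable_const v) i y
    rw [D_const, inner_zero_right, zero_add] at this
    exact this
  have DDG : ∀ i j, D i (D j G) = fun y => ⟪S.q i j y, v⟫ := by
    intro i j
    rw [DG]
    funext y
    have := D_inner (S.p_diff j) (differentiable_const v) i y
    rw [D_const, inner_zero_right, zero_add] at this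
    exact this
  have hDGd : ∀ i, Differentiable ℝ (D i G) := by
    intro i
    rw [DG]
    exact (S.p_diff i).inner ℝ (differentiable_const v)
  constructor
  · intro i
    have hloc : IsLocalMax G x := Filter.Eventually.of_forall hx
    have h0 := hloc.fderiv_eq_zero
    have : D i G x = 0 := by unfold D; rw [h0]; rfl
    rw [DG] at this
    rw [real_inner_comm]
    exact this
  · intro u
    set φ : ℝ → ℝ := fun t => G (x + t • u) with hφ
    have h1 : ∀ t, HasDerivAt φ (u 0 * D 0 G (x + t • u) + u 1 * D 1 G (x + t • u)) t :=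
      fun t => hasDerivAt_line hGd x u t
    have hd : deriv φ = fun t => u 0 * D 0 G (x + t • u) + u 1 * D 1 G (x + t • u) :=
      funext fun t => (h1 t).deriv
    have hmax : IsLocalMax φ 0 := by
      refine Filter.Eventually.of_forall fun t => ?_
      simp only [hφ, zero_smul, add_zero]
      exact hx _
    have h2 := second_deriv_nonpos (fun t => (h1 t).differentiableAt) hmax
    rw [hd] at h2
    have h3 := ((hasDerivAt_line (hDGd 0) x u 0).const_mul (u 0)).fun_add
      ((hasDerivAt_line (hDGd 1) x u 0).const_mul (u 1))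
    have h4 : deriv (fun t : ℝ => u 0 * D 0 G (x + t • u) + u 1 * D 1 G (x + t • u)) 0 = _ := h3.deriv
    rw [h4] at h2
    simp only [zero_smul, add_zero, DDG] at h2
    rw [S.q_symm 1 0] at h2
    nlinarith [h2]

lemma unit_eq (v : E3) (hv : ⟪v, v⟫ = 1) (x : V2) (h : ∀ i, ⟪v, S.p i x⟫ = 0) :
    v = S.n x ∨ v = - S.n x := by
  have h1 := S.eq_smul_n x v (h 0) (h 1)
  set c := ⟪v, S.n x⟫ with hc
  have h2 : c ^ 2 = 1 := by
    have : ⟪v, v⟫ = c ^ 2 := by
      conv_lhs => rw [h1]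
      rw [real_inner_smul_left, real_inner_smul_right, S.n_n]; ring
    rw [← this, hv]
  have h3 : c = 1 ∨ c = -1 := by
    have : (c - 1) * (c + 1) = 0 := by linarith [h2, show (c-1)*(c+1) = c^2 - 1 by ring]
    rcases mul_eq_zero.mp this with h | h
    · left; linarith
    · right; linarith
  rcases h3 with h3 | h3
  · left; rw [h1, h3, one_smul]
  · right; rw [h1, h3, neg_one_smul]

/-- a closed (doubly periodic) surface -/
structure Per : Prop where
  per : ∀ (k : Fin 2 → ℤ) (x : V2), S.f (x + fun i => (k i : ℝ)) = S.f x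

/-- maximum points of the height in direction of the normal -/
def X1 : Set V2 := {x | x ∈ Icc (0 : V2) 1 ∧ ∀ y, ⟪S.f y, S.n x⟫ ≤ ⟪S.f x, S.n x⟫}
def X2 : Set V2 := {x | x ∈ Icc (0 : V2) 1 ∧ ∀ y, ⟪S.f x, S.n x⟫ ≤ ⟪S.f y, S.n x⟫}

lemma n_cont : Continuous S.n := S.n_contDiff.continuous
lemma f_cont : Continuous S.f := S.hf.continuous

lemma X1_closed : IsClosed S.X1 := by
  have : S.X1 = Icc (0 : V2) 1 ∩ ⋂ y, {x | ⟪S.f y, S.n x⟫ ≤ ⟪S.f x, S.n x⟫} := by
    ext x; simp [X1]
  rw [this]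
  refine isClosed_Icc.inter (isClosed_iInter fun y => isClosed_le ?_ ?_)
  · exact continuous_const.inner S.n_cont
  · exact S.f_cont.inner S.n_cont

lemma X2_closed : IsClosed S.X2 := by
  have : S.X2 = Icc (0 : V2) 1 ∩ ⋂ y, {x | ⟪S.f x, S.n x⟫ ≤ ⟪S.f y, S.n x⟫} := by
    ext x; simp [X2]
  rw [this]
  refine isClosed_Icc.inter (isClosed_iInter fun y => isClosed_le ?_ ?_)
  · exact S.f_cont.inner S.n_cont
  · exact continuous_const.inner S.n_cont

lemma cover (hper : S.Per) (v : E3) (hv : ⟪v, v⟫ = 1) :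
    (∃ x ∈ S.X1, S.n x = v) ∨ (∃ x ∈ S.X2, S.n x = -v) := by
  have hcont : Continuous (fun y => ⟪S.f y, v⟫) := S.f_cont.inner continuous_const
  obtain ⟨x, hx, hmax⟩ := (isCompact_Icc (a := (0 : V2)) (b := 1)).exists_isMaxOn
    ⟨0, by simp⟩ hcont.continuousOn
  have hall : ∀ y, ⟪S.f y, v⟫ ≤ ⟪S.f x, v⟫ := by
    intro y
    have h1 := hper.per (fun i => -⌊y i⌋) y
    rw [← h1]
    apply hmax
    constructor
    · intro i
      simp only [Pi.add_apply, Pi.zero_apply, Int.cast_neg]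
      have := Int.fract_nonneg (y i)
      unfold Int.fract at this
      linarith
    · intro i
      simp only [Pi.add_apply, Pi.one_apply, Int.cast_neg]
      have := (Int.fract_lt_one (y i)).le
      unfold Int.fract at this
      linarith
  obtain ⟨h1, _⟩ := S.second_order v x hall
  rcases S.unit_eq v hv x h1 with h | h
  · left
    refine ⟨x, ⟨hx, fun y => ?_⟩, h.symm⟩
    rw [← h]; exact hall y
  · right
    refine ⟨x, ⟨hx, fun y => ?_⟩, by rw [h, neg_neg]⟩
    have := hall y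
    rw [h, inner_neg_right, inner_neg_right] at this
    linarith

lemma det_nonneg {A B C : ℝ} (h : ∀ u : V2, A * u 0 ^ 2 + 2 * B * (u 0 * u 1) + C * u 1 ^ 2 ≤ 0) :
    0 ≤ A * C - B ^ 2 := by
  have hA : A ≤ 0 := by have := h ![1, 0]; simpa using this
  have hC : C ≤ 0 := by have := h ![0, 1]; simpa using this
  have h1 := h ![B, -A]
  simp only [Matrix.cons_val_zero, Matrix.cons_val_one] at h1
  rcases hA.lt_or_eq with hA | hA
  · have h2 : A * (A * C - B ^ 2) ≤ 0 := by nlinarith [h1]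
    by_contra hlt
    rw [not_le] at hlt
    nlinarith [mul_pos_of_neg_of_neg hA hlt]
  · subst hA
    have h3 := h ![1, B / 2]
    have h4 := h ![-C, B]
    simp only [Matrix.cons_val_zero, Matrix.cons_val_one] at h3 h4
    -- `2 B * (u0 u1) + C u1^2 ≤ 0`
    have h5 : -C * B ^ 2 ≤ 0 := by nlinarith [h4]
    have h6 := h ![1 - C, B]
    simp only [Matrix.cons_val_zero, Matrix.cons_val_one] at h6
    nlinarith [h6, h5]

lemma B''_nonpos_of_max (v : E3) (hv : ⟪v, v⟫ = 1) (x : V2) (hx : ∀ y, ⟪S.f y, v⟫ ≤ ⟪S.f x, v⟫) :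
    deriv (deriv S.B) (x 0) ≤ 0 := by
  obtain ⟨h1, h2⟩ := S.second_order v x hx
  have h3 := det_nonneg h2
  have h4 : ⟪S.q 0 0 x, v⟫ * ⟪S.q 1 1 x, v⟫ - ⟪S.q 0 1 x, v⟫ ^ 2
      = S.h 0 0 x * S.h 1 1 x - S.h 0 1 x ^ 2 := by
    unfold h
    rcases S.unit_eq v hv x h1 with h | h
    · rw [h, real_inner_comm (S.n x), real_inner_comm (S.n x), real_inner_comm (S.n x)]
    · rw [h, inner_neg_right, inner_neg_right, inner_neg_right,
        real_inner_comm (S.n x), real_inner_comm (S.n x), real_inner_comm (S.n x)]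
      ring
  rw [h4, S.h_det] at h3
  have := S.hBp (x 0)
  by_contra hlt
  rw [not_le] at hlt
  nlinarith [mul_pos this hlt]

lemma B''_X1 (x : V2) (hx : x ∈ S.X1) : deriv (deriv S.B) (x 0) ≤ 0 :=
  S.B''_nonpos_of_max (S.n x) (S.n_n x) x hx.2

lemma B''_X2 (x : V2) (hx : x ∈ S.X2) : deriv (deriv S.B) (x 0) ≤ 0 := by
  refine S.B''_nonpos_of_max (- S.n x) (by rw [inner_neg_neg]; exact S.n_n x) x fun y => ?_
  rw [inner_neg_right, inner_neg_right]
  linarith [hx.2 y]

lemma disj (hB : ∃ t, deriv (deriv S.B) t ≠ 0) : Disjoint S.X1 S.X2 := by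
  rw [Set.disjoint_left]
  intro x h1 h2
  obtain ⟨t, ht⟩ := hB
  have hc : ∀ y, ⟪S.f y, S.n x⟫ = ⟪S.f x, S.n x⟫ := fun y => le_antisymm (h1.2 y) (h2.2 y)
  set y : V2 := fun _ => t with hy
  obtain ⟨ha, hb⟩ := S.second_order (S.n x) y (fun z => (by rw [hc, hc y]))
  obtain ⟨ha', hb'⟩ := S.second_order (-S.n x) y (fun z => (by rw [inner_neg_right, inner_neg_right, hc z, hc y]))
  have z1 : ⟪S.q 0 0 y, S.n x⟫ = 0 := by
    have e1 := hb ![1, 0]
    have e2 := hb' ![1, 0]
    simp [inner_neg_right] at e1 e2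
    linarith
  have z2 : ⟪S.q 1 1 y, S.n x⟫ = 0 := by
    have e1 := hb ![0, 1]
    have e2 := hb' ![0, 1]
    simp [inner_neg_right] at e1 e2
    linarith
  have z3 : ⟪S.q 0 1 y, S.n x⟫ = 0 := by
    have e1 := hb ![1, 1]
    have e2 := hb' ![1, 1]
    simp only [inner_neg_right, Matrix.cons_val_zero, Matrix.cons_val_one, z1, z2] at e1 e2
    linarith
  have hdet := S.h_det y
  have h0 : S.h 0 0 y = 0 ∧ S.h 1 1 y = 0 ∧ S.h 0 1 y = 0 := by
    unfold h
    rcases S.unit_eq (S.n x) (S.n_n x) y ha with h | h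
    · rw [← h, real_inner_comm, real_inner_comm (S.q 1 1 y), real_inner_comm (S.q 0 1 y)]
      exact ⟨z1, z2, z3⟩
    · have h' : S.n y = - S.n x := by rw [h, neg_neg]
      rw [h', inner_neg_left, inner_neg_left, inner_neg_left, real_inner_comm,
        real_inner_comm (S.q 1 1 y), real_inner_comm (S.q 0 1 y), z1, z2, z3]
      simp
  rw [h0.1, h0.2.1, h0.2.2] at hdet
  have hbp := (S.hBp (y 0)).ne'
  have : S.B (y 0) * deriv (deriv S.B) (y 0) = 0 := by linarith
  rcases mul_eq_zero.mp this with h | h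
  · exact hbp h
  · exact ht h

/-! ### the cone over the Gauss map -/

/-- projection to the parameter plane -/
noncomputable def prj : E3 →L[ℝ] V2 :=
  ContinuousLinearMap.pi (fun i => EuclideanSpace.proj (Fin.castSucc i))

/-- last coordinate -/
noncomputable def pr2 : E3 →L[ℝ] ℝ := EuclideanSpace.proj 2

lemma pr2_apply (y : E3) : pr2 y = y 2 := rfl

lemma prj_apply (y : E3) (i : Fin 2) : prj y i = y (Fin.castSucc i) := rfl

/-- the cone over the Gauss map -/
noncomputable def Φ (y : E3) : E3 := y 2 • S.n (prj y)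

noncomputable def Φ' (y : E3) : E3 →L[ℝ] E3 :=
  y 2 • ((fderiv ℝ S.n (prj y)).comp prj) +
    pr2.smulRight (S.n (prj y))

lemma Φ_deriv (y : E3) : HasFDerivAt S.Φ (S.Φ' y) y := by
  have h1 : HasFDerivAt (fun y : E3 => y 2) pr2 y := pr2.hasFDerivAt
  have h2 : HasFDerivAt (fun y : E3 => S.n (prj y)) ((fderiv ℝ S.n (prj y)).comp prj) y :=
    (S.n_diff (prj y)).hasFDerivAt.comp y prj.hasFDerivAt
  exact h1.smul h2

lemma Φ'_det (y : E3) : |(S.Φ' y).det| = y 2 ^ 2 * (|deriv (deriv S.B) (y 0)| / S.a) := by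
  have hx0 : prj y 0 = y 0 := rfl
  rw [← hx0, ← S.det_n (prj y)]
  have h0 : S.Φ' y (EuclideanSpace.single 0 1) = y 2 • D 0 S.n (prj y) := by
    have : prj (EuclideanSpace.single 0 1) = (Pi.single 0 1 : V2) := by
      funext i; fin_cases i <;> simp [prj_apply]
    simp [Φ', this, D, pr2_apply]
  have h1 : S.Φ' y (EuclideanSpace.single 1 1) = y 2 • D 1 S.n (prj y) := by
    have : prj (EuclideanSpace.single 1 1) = (Pi.single 1 1 : V2) := by
      funext i; fin_cases i <;> simp [prj_apply]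
    simp [Φ', this, D, pr2_apply]
  have h2 : S.Φ' y (EuclideanSpace.single 2 1) = S.n (prj y) := by
    have : prj (EuclideanSpace.single 2 1) = 0 := by
      funext i; fin_cases i <;> simp [prj_apply]
    simp [Φ', this, pr2_apply]
  have hdet : (S.Φ' y).det = y 2 ^ 2 * det3 (D 0 S.n (prj y)) (D 1 S.n (prj y)) (S.n (prj y)) := by
    rw [ContinuousLinearMap.det, ← LinearMap.det_toMatrix (EuclideanSpace.basisFun (Fin 3) ℝ).toBasis,
      det3, Matrix.det_fin_three, Matrix.det_fin_three]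
    simp only [LinearMap.toMatrix_apply, OrthonormalBasis.coe_toBasis,
      EuclideanSpace.basisFun_apply, ContinuousLinearMap.coe_coe, h0, h1, h2]
    simp
    ring
  rw [hdet, abs_mul, abs_of_nonneg (sq_nonneg (y 2))]

def A1 : Set E3 := {y | prj y ∈ S.X1 ∧ y 2 ∈ Ioo (0:ℝ) 1}
def A2 : Set E3 := {y | prj y ∈ S.X2 ∧ y 2 ∈ Ioo (0:ℝ) 1}

lemma A1_meas : MeasurableSet S.A1 :=
  (S.X1_closed.measurableSet.preimage prj.continuous.measurable).inter
    (measurableSet_Ioo.preimage pr2.continuous.measurable)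
lemma A2_meas : MeasurableSet S.A2 :=
  (S.X2_closed.measurableSet.preimage prj.continuous.measurable).inter
    (measurableSet_Ioo.preimage pr2.continuous.measurable)

lemma ball_subset (hper : S.Per) :
    Metric.ball (0 : E3) 1 \ {0} ⊆ (S.Φ '' S.A1) ∪ ((fun y => - S.Φ y) '' S.A2) := by
  intro v hv
  have hv0 : v ≠ 0 := fun h => hv.2 (by simpa using h)
  have hn : 0 < ‖v‖ := norm_pos_iff.mpr hv0
  have hn1 : ‖v‖ < 1 := by simpa using hv.1
  set w : E3 := ‖v‖⁻¹ • v with hw
  have hw1 : ⟪w, w⟫ = 1 := by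
    rw [hw, real_inner_smul_left, real_inner_smul_right, real_inner_self_eq_norm_sq]
    field_simp
  have hvw : v = ‖v‖ • w := by
    rw [hw, smul_smul, mul_inv_cancel₀ hn.ne', one_smul]
  rcases S.cover hper w hw1 with ⟨x, hx, hxn⟩ | ⟨x, hx, hxn⟩
  · left
    refine ⟨!₂[x 0, x 1, ‖v‖], ⟨?_, ?_⟩, ?_⟩
    · have : prj !₂[x 0, x 1, ‖v‖] = x := by
        funext i; fin_cases i <;> simp [prj_apply]
      rw [this]; exact hx
    · simp; exact ⟨hv0, hn1⟩
    · have : prj !₂[x 0, x 1, ‖v‖] = x := by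
        funext i; fin_cases i <;> simp [prj_apply]
      simp only [Φ, this, hxn]
      simpa using hvw.symm
  · right
    refine ⟨!₂[x 0, x 1, ‖v‖], ⟨?_, ?_⟩, ?_⟩
    · have : prj !₂[x 0, x 1, ‖v‖] = x := by
        funext i; fin_cases i <;> simp [prj_apply]
      rw [this]; exact hx
    · simp; exact ⟨hv0, hn1⟩
    · have : prj !₂[x 0, x 1, ‖v‖] = x := by
        funext i; fin_cases i <;> simp [prj_apply]
      simp only [Φ, this, hxn]
      simpa using hvw.symm

/-- the density -/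
noncomputable def dens (y : E3) : ENNReal :=
  ENNReal.ofReal (y 2 ^ 2 * (max (-deriv (deriv S.B) (y 0)) 0 / S.a))

def Q : Set E3 := {y | prj y ∈ Icc (0 : V2) 1 ∧ y 2 ∈ Ioo (0:ℝ) 1}

lemma Q_meas : MeasurableSet Q :=
  (measurableSet_Icc.preimage prj.continuous.measurable).inter
    (measurableSet_Ioo.preimage pr2.continuous.measurable)

lemma ball_le (hper : S.Per) (hB : ∃ t, deriv (deriv S.B) t ≠ 0) :
    volume (Metric.ball (0 : E3) 1) ≤ ∫⁻ y in Q, S.dens y := by
  have hm1 : volume (S.Φ '' S.A1) ≤ ∫⁻ y in S.A1, S.dens y := by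
    refine (addHaar_image_le_lintegral_abs_det_fderiv volume S.A1_meas
      (fun y _ => (S.Φ_deriv y).hasFDerivWithinAt)).trans ?_
    refine setLIntegral_mono' S.A1_meas fun y hy => ?_
    rw [S.Φ'_det, dens]
    apply ENNReal.ofReal_le_ofReal
    have h := S.B''_X1 _ hy.1
    have h' : deriv (deriv S.B) (y 0) ≤ 0 := h
    rw [abs_of_nonpos h', max_eq_left (by linarith)]
  have hm2 : volume ((fun y => - S.Φ y) '' S.A2) ≤ ∫⁻ y in S.A2, S.dens y := by
    refine (addHaar_image_le_lintegral_abs_det_fderiv volume S.A2_meas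
      (fun y _ => (S.Φ_deriv y).fun_neg.hasFDerivWithinAt)).trans ?_
    refine setLIntegral_mono' S.A2_meas fun y hy => ?_
    have e : |(-S.Φ' y).det| = |(S.Φ' y).det| := by
      rw [ContinuousLinearMap.det, ContinuousLinearMap.det]
      have : ((-S.Φ' y : E3 →L[ℝ] E3) : E3 →ₗ[ℝ] E3) = (-1 : ℝ) • ((S.Φ' y : E3 →L[ℝ] E3) : E3 →ₗ[ℝ] E3) := by
        ext v; simp
      rw [this, LinearMap.det_smul, abs_mul]
      simp
    rw [e, S.Φ'_det, dens]
    apply ENNReal.ofReal_le_ofReal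
    have h := S.B''_X2 _ hy.1
    have h' : deriv (deriv S.B) (y 0) ≤ 0 := h
    rw [abs_of_nonpos h', max_eq_left (by linarith)]
  have hdisj : Disjoint S.A1 S.A2 := by
    rw [Set.disjoint_left]
    intro y h1 h2
    exact Set.disjoint_left.mp (S.disj hB) h1.1 h2.1
  have hsub : S.A1 ∪ S.A2 ⊆ Q := by
    rintro y (h | h)
    · exact ⟨h.1.1, h.2⟩
    · exact ⟨h.1.1, h.2⟩
  calc volume (Metric.ball (0 : E3) 1) = volume (Metric.ball (0 : E3) 1 \ {0}) := by
        rw [measure_sdiff_null]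
        exact measure_singleton 0
    _ ≤ volume ((S.Φ '' S.A1) ∪ ((fun y => - S.Φ y) '' S.A2)) := measure_mono (S.ball_subset hper)
    _ ≤ volume (S.Φ '' S.A1) + volume ((fun y => - S.Φ y) '' S.A2) := measure_union_le _ _
    _ ≤ (∫⁻ y in S.A1, S.dens y) + ∫⁻ y in S.A2, S.dens y := add_le_add hm1 hm2
    _ = ∫⁻ y in S.A1 ∪ S.A2, S.dens y := (lintegral_union S.A2_meas hdisj).symm
    _ ≤ ∫⁻ y in Q, S.dens y := lintegral_mono_set hsub

end Surf
end Run7.h812.Torus
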